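import Pool.Agent.Helper34_TDL.Brg0
import Pool.Agent.Helper53_TDG.Comp

/-!
# Total domination game, bridge: translation of `sf`, `ph`, `J`
-/

set_option autoImplicit false
set_option linter.unusedSectionVars false

namespace Pool.Agent.TDG.BR.H63

open Finset Helper77.TDG Pool.Agent.TDG Pool.Agent.TDG.BR

variable {V X : Type} [Fintype V] [DecidableEq V] [DecidableEq X]

theorem J_posOf (N : V → Finset X) (Hv U R : Finset X) (hR : R ⊆ U \ Hv) :
    TDL.J (posOf N Hv U) R = J N U R := by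
  ext v
  unfold TDL.J
  rw [mem_J]
  simp only [Finset.mem_filter]
  constructor
  · rintro ⟨h1, h2⟩
    have h3 : v ∈ (alive N U).filter fun v => N v ∩ U ⊆ U \ Hv := h1
    rw [Finset.mem_filter, mem_alive] at h3
    exact ⟨h3.1, h2⟩
  · rintro ⟨h1, h2⟩
    refine ⟨?_, h2⟩
    show v ∈ (alive N U).filter fun v => N v ∩ U ⊆ U \ Hv
    rw [Finset.mem_filter, mem_alive]
    exact ⟨h1, h2.trans hR⟩

theorem meets_posOf (N : V → Finset X) (Hv U C : Finset X) (hC : C ⊆ U) (v : V) :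
    TDL.Meets (posOf N Hv U) v C ↔ (N v ∩ C).Nonempty := by
  unfold TDL.Meets
  rw [Finset.not_disjoint_iff]
  constructor
  · rintro ⟨x, hx, hxC⟩
    have hx' : x ∈ N v ∩ U := hx
    exact ⟨x, mem_inter.2 ⟨(mem_inter.1 hx').1, hxC⟩⟩
  · rintro ⟨x, hx⟩
    rw [mem_inter] at hx
    exact ⟨x, mem_inter.2 ⟨hx.1, hC hx.2⟩, hx.2⟩

theorem Sall_posOf (N : V → Finset X) (Hv U R : Finset X) (hR : R ⊆ U \ Hv) :
    TDL.Sall (posOf N Hv U) (badOf N Hv U) R = bc N Hv U R := by
  ext C
  unfold TDL.Sall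
  rw [mem_bc]
  simp only [Finset.mem_filter]
  constructor
  · rintro ⟨h1, ⟨h2, h3, h4⟩, h5, h6⟩
    have hCU : C ⊆ U := h2.trans sdiff_subset
    refine ⟨⟨?_, ?_⟩, h3⟩
    · intro x hx
      exact mem_sdiff.2 ⟨hCU hx, disjoint_left.1 h5 hx⟩
    · intro v hv
      have h7 := h4 v hv
      have hal : (N v ∩ U).Nonempty := hv.mono (inter_subset_inter_left hCU)
      have hA : v ∈ (posOf N Hv U).A := by
        show v ∈ (alive N U).filter fun v => N v ∩ U ⊆ U \ Hv
        rw [Finset.mem_filter, mem_alive]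
        exact ⟨hal, h7⟩
      have h8 : N v ∩ U ⊆ C ∪ R := by
        intro x hx
        have h9 := h6 v hA ((meets_posOf N Hv U C hCU v).2 hv) hx
        rw [mem_union]
        exact (@Finset.mem_union X (fun a b => Classical.propDecidable (a = b)) C R x).1 h9
      intro x hx
      rw [mem_inter, mem_sdiff] at hx
      have h9 := h8 (mem_inter.2 ⟨hx.1, hx.2.1⟩)
      rw [mem_union] at h9
      exact h9.resolve_right hx.2.2
  · rintro ⟨⟨h1, h2⟩, h3⟩
    have hCU : C ⊆ U := h1.trans sdiff_subset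
    have hdH : Disjoint C Hv := h3.2.1.1
    have hCH : C ⊆ U \ Hv := fun x hx => mem_sdiff.2 ⟨hCU hx, disjoint_left.1 hdH hx⟩
    have hkey : ∀ v, (N v ∩ C).Nonempty → N v ∩ U ⊆ C ∪ R := by
      intro v hv x hx
      rw [mem_inter] at hx
      rw [mem_union]
      by_cases hxR : x ∈ R
      · exact Or.inr hxR
      · exact Or.inl (h2 v hv (mem_inter.2 ⟨hx.1, mem_sdiff.2 ⟨hx.2, hxR⟩⟩))
    refine ⟨?_, ⟨hCH, h3, ?_⟩, ?_, ?_⟩
    · show C ∈ (U \ Hv).powerset
      exact mem_powerset.2 hCH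
    · intro v hv
      exact (hkey v hv).trans (union_subset hCH hR)
    · rw [disjoint_left]
      intro x hx hxR
      exact (mem_sdiff.1 (h1 hx)).2 hxR
    · intro v _ hv x hx
      have h9 := hkey v ((meets_posOf N Hv U C hCU v).1 hv) hx
      rw [mem_union] at h9
      exact (@Finset.mem_union X (fun a b => Classical.propDecidable (a = b)) C R x).2 h9

/-- module BFAL -/
theorem fall : FallStmt := by
  intro V X _ _ _ N Hv U R _ hR
  have h1 := J_posOf N Hv U R hR
  have h2 := Sall_posOf N Hv U R hR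
  refine ⟨?_, ?_, h1⟩
  · unfold TDL.Fall sf ph
    rw [h1, h2]
    ring
  · unfold TDL.ph ph
    rw [h1]

end Pool.Agent.TDG.BR.H63
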